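import Pool.Agent.H37.CV.Targets

/-! CR: integral representatives of the ideal classes. -/

set_option autoImplicit false

open NumberField nonZeroDivisors

namespace Pool.Agent.H86.CV

open Pool.Agent.H37.CV Pool.Agent.H28.RC Pool.Agent.H25.HK

theorem pf_CR : T_CR := by
  intro K _ _
  classical
  have hsurj := ClassGroup.mk0_surjective (R := 𝓞 K)
  choose J hJ using hsurj
  refine ⟨(Finset.univ : Finset (ClassGroup (𝓞 K))).image fun c => (J c : Ideal (𝓞 K)), ?_, ?_⟩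
  · intro g hg
    obtain ⟨c, -, rfl⟩ := Finset.mem_image.1 hg
    exact nonZeroDivisors.ne_zero (J c).2
  · intro I hI
    have hI' : I ∈ (Ideal (𝓞 K))⁰ := mem_nonZeroDivisors_of_ne_zero hI
    obtain ⟨c, hc⟩ : ∃ c, c = (ClassGroup.mk0 (⟨I, hI'⟩ : (Ideal (𝓞 K))⁰))⁻¹ := ⟨_, rfl⟩
    refine ⟨J c, Finset.mem_image_of_mem _ (Finset.mem_univ c), ?_⟩
    have hp : (J c : Ideal (𝓞 K)) * I ∈ (Ideal (𝓞 K))⁰ := mul_mem (J c).2 hI'
    have h1 : ClassGroup.mk0 (⟨(J c : Ideal (𝓞 K)) * I, hp⟩ : (Ideal (𝓞 K))⁰) = 1 := by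
      have e : (⟨(J c : Ideal (𝓞 K)) * I, hp⟩ : (Ideal (𝓞 K))⁰) = J c * ⟨I, hI'⟩ :=
        Subtype.ext rfl
      rw [e, map_mul, hJ c, hc, inv_mul_cancel]
    have h2 : ((J c : Ideal (𝓞 K)) * I).IsPrincipal := (ClassGroup.mk0_eq_one_iff hp).1 h1
    obtain ⟨a, ha⟩ := h2
    refine ⟨a, ?_, ha⟩
    rintro rfl
    have h3 : (J c : Ideal (𝓞 K)) * I ≠ ⊥ :=
      mul_ne_zero (nonZeroDivisors.ne_zero (J c).2) hI
    apply h3
    rw [ha]
    simp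

end Pool.Agent.H86.CV
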