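import Pool.Agent.H37.CV.Targets
import Pool.Agent.H33.DP.DN1
import Pool.Agent.H30.Vino.Divisor

/-! DV: divisors and numbers of ideals. -/

set_option autoImplicit false

open NumberField Filter Topology

namespace Pool.Agent.H86.CV

open Pool.Agent.H37.CV Pool.Agent.H28.RC Pool.Agent.H25.HK Pool.Agent.H76.HK
  Pool.Agent.H33.DP.DN1

/-- products of bounded arithmetic functions -/
theorem dv_prod {ι : Type} [DecidableEq ι] (s : Finset ι) (F : ι → ArithmeticFunction ℂ)
    (hF : ∀ j n, ‖F j n‖ ≤ 1) (n : ℕ) (hn : n ≠ 0) :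
    ‖(∏ j ∈ s, F j) n‖ ≤ (n.divisors.card : ℝ) ^ s.card := by
  induction s using Finset.induction_on generalizing n with
  | empty =>
    rw [Finset.prod_empty, ArithmeticFunction.one_apply, Finset.card_empty, pow_zero]
    split_ifs <;> simp
  | insert a s ha ih =>
    rw [Finset.prod_insert ha, ArithmeticFunction.mul_apply, Finset.card_insert_of_notMem ha]
    have h1 : ∀ x ∈ n.divisorsAntidiagonal, ‖F a x.1 * (∏ j ∈ s, F j) x.2‖ ≤
        (n.divisors.card : ℝ) ^ s.card := by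
      intro x hx
      rw [Nat.mem_divisorsAntidiagonal] at hx
      have hx2 : x.2 ≠ 0 := by
        rintro h
        apply hx.2
        rw [← hx.1, h, mul_zero]
      have hd : x.2 ∣ n := Dvd.intro_left _ hx.1
      rw [norm_mul]
      calc ‖F a x.1‖ * ‖(∏ j ∈ s, F j) x.2‖ ≤ 1 * (x.2.divisors.card : ℝ) ^ s.card :=
            mul_le_mul (hF a x.1) (ih x.2 hx2) (norm_nonneg _) zero_le_one
        _ = (x.2.divisors.card : ℝ) ^ s.card := one_mul _
        _ ≤ _ := by
            refine pow_le_pow_left₀ (Nat.cast_nonneg _) ?_ _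
            exact_mod_cast Finset.card_le_card (Nat.divisors_subset_of_dvd hn hd)
    refine (norm_sum_le_of_le _ h1).trans (le_of_eq ?_)
    rw [Finset.sum_const, nsmul_eq_mul, pow_succ, mul_comm]
    congr 2
    rw [← Nat.map_div_right_divisors, Finset.card_map]

theorem dv_cnt (K : Type) [Field K] [NumberField K] (n : ℕ) (hn : n ≠ 0) :
    (cnt K n : ℝ) ≤ (n.divisors.card : ℝ) ^ Module.finrank ℚ K := by
  classical
  obtain ⟨h, hz, h1, hm, hb, hL, hs⟩ := ep K
  set F : Fin (Module.finrank ℚ K) → ArithmeticFunction ℂ := fun j => ah (h j) (hz j) with hF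
  have hsumF : ∀ z : ℂ, 1 < z.re → ∀ j, LSeriesSummable (fun n => F j n) z := fun z hz' j =>
    LSeriesSummable_of_bounded_of_one_lt_re (m := 1) (fun n _ => hb j n) hz'
  have hAL : ∀ z : ℂ, 1 < z.re → LSeries (fun n => (∏ j, F j) n) z = dedekindZeta K z := by
    intro z hz'
    rw [(L_prod Finset.univ F z (hsumF z hz')).2, hL z hz']
    refine Finset.prod_congr rfl fun j _ => ?_
    refine tsum_congr fun m => ?_
    rw [LSeries.term_def₀ (f := fun n => F j n) (hz j)]
    rfl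
  have hAc : (∏ j, F j) n = (cnt K n : ℂ) := by
    refine LSeries.eq_of_LSeries_eventually_eq (f := fun n => (∏ j, F j) n)
      (g := fun n => (cnt K n : ℂ)) ?_ ?_ ?_ hn
    · refine lt_of_le_of_lt (LSeriesSummable.abscissaOfAbsConv_le
        (L_prod Finset.univ F 2 (hsumF 2 (by norm_num))).1) ?_
      exact EReal.coe_lt_top _
    · refine lt_of_le_of_lt (LSeriesSummable.abscissaOfAbsConv_le
        (dz_summable K (s := 2) (by norm_num))) ?_
      exact EReal.coe_lt_top _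
    · filter_upwards [eventually_gt_atTop (1 : ℝ)] with x hx'
      exact hAL x (by simpa using hx')
  have h2 := dv_prod Finset.univ F (fun j m => hb j m) n hn
  rw [hAc, Complex.norm_natCast, Finset.card_univ, Fintype.card_fin] at h2
  exact h2

/-- the divisor bound -/
theorem dv_tau (k : ℕ) (ε : ℝ) (hε : 0 < ε) : ∃ C : ℝ, 1 ≤ C ∧ ∀ n : ℕ, 1 ≤ n →
    (n.divisors.card : ℝ) ^ k ≤ C * (n : ℝ) ^ ε := by
  obtain ⟨L, hL⟩ := exists_nat_ge ((k : ℝ) / ε + 1)
  have hL0 : (0 : ℝ) < L := by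
    have : 0 ≤ (k : ℝ) / ε := by positivity
    linarith
  have hkL : (k : ℝ) / L ≤ ε := by
    rw [div_le_iff₀ hL0]
    have : (k : ℝ) / ε ≤ L := by linarith
    rw [div_le_iff₀ hε] at this
    linarith
  obtain ⟨C, hC0, hC⟩ := Pool.Agent.H30.Vino.card_divisors_pow_le L
  have hC1 : (1 : ℝ) ≤ C := by exact_mod_cast hC0
  refine ⟨(C : ℝ) ^ ((k : ℝ) / L), Real.one_le_rpow hC1 (by positivity), fun n hn => ?_⟩
  have h1 : ((n.divisors.card : ℝ)) ^ L ≤ C * n := by exact_mod_cast hC n hn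
  have hn1 : (1 : ℝ) ≤ n := by exact_mod_cast hn
  calc (n.divisors.card : ℝ) ^ k = ((n.divisors.card : ℝ) ^ L) ^ ((k : ℝ) / L) := by
        rw [← Real.rpow_natCast _ L, ← Real.rpow_mul (Nat.cast_nonneg _),
          mul_div_cancel₀ _ hL0.ne', Real.rpow_natCast]
    _ ≤ ((C : ℝ) * n) ^ ((k : ℝ) / L) :=
        Real.rpow_le_rpow (by positivity) h1 (by positivity)
    _ = (C : ℝ) ^ ((k : ℝ) / L) * (n : ℝ) ^ ((k : ℝ) / L) :=
        Real.mul_rpow (by positivity) (by positivity)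
    _ ≤ (C : ℝ) ^ ((k : ℝ) / L) * (n : ℝ) ^ ε :=
        mul_le_mul_of_nonneg_left (Real.rpow_le_rpow_of_exponent_le hn1 hkL) (by positivity)

section NF

variable {K : Type} [Field K] [NumberField K]

omit [NumberField K] in
/-- a prime ideal which contains `n` contains a prime divisor of `n` -/
theorem dv_prime {P : Ideal (𝓞 K)} (hP : P.IsPrime) : ∀ n : ℕ, n ≠ 0 → ((n : ℕ) : 𝓞 K) ∈ P →
    ∃ p : ℕ, p.Prime ∧ p ∣ n ∧ (p : 𝓞 K) ∈ P := by
  intro n
  induction n using Nat.recOnMul with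
  | zero => intro h; exact absurd rfl h
  | one =>
    intro _ h
    rw [Nat.cast_one] at h
    exact absurd ((Ideal.eq_top_iff_one P).2 h) hP.ne_top
  | prime p hp => intro _ h; exact ⟨p, hp, dvd_rfl, h⟩
  | mul a b iha ihb =>
    intro hab h
    rw [Nat.cast_mul] at h
    rcases hP.mem_or_mem h with h1 | h1
    · obtain ⟨p, hp, hd, hm⟩ := iha (left_ne_zero_of_mul hab) h1
      exact ⟨p, hp, hd.mul_right b, hm⟩
    · obtain ⟨p, hp, hd, hm⟩ := ihb (right_ne_zero_of_mul hab) h1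
      exact ⟨p, hp, hd.mul_left a, hm⟩

theorem dv_pf (I : Ideal (𝓞 K)) (hI : I ≠ ⊥) :
    (pf I).card ≤ Module.finrank ℚ K * (Ideal.absNorm I).primeFactors.card := by
  classical
  have hN : Ideal.absNorm I ≠ 0 := fun h => hI (Ideal.absNorm_eq_zero_iff.1 h)
  unfold pf
  split_ifs with h
  · choose S hS1 hS2 hS3 hS4 using fun p : Nat.Primes => primes_fin K p p.2
    have h1 : (h.toFinset.image Subtype.val) ⊆ (Ideal.absNorm I).primeFactors.biUnion
        (fun p => if hp : p.Prime then S ⟨p, hp⟩ else ∅) := by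
      intro P hP
      obtain ⟨Q, hQ, rfl⟩ := Finset.mem_image.1 hP
      rw [Set.Finite.mem_toFinset] at hQ
      have h2 : ((Ideal.absNorm I : ℕ) : 𝓞 K) ∈ Q.1 := hQ (Ideal.absNorm_mem I)
      obtain ⟨p, hp, hd, hm⟩ := dv_prime Q.2.1 _ hN h2
      refine Finset.mem_biUnion.2 ⟨p, Nat.mem_primeFactors.2 ⟨hp, hd, hN⟩, ?_⟩
      rw [dif_pos hp, hS1]
      exact ⟨Q.2.1, Q.2.2, hm⟩
    calc h.toFinset.card = (h.toFinset.image Subtype.val).card :=
          (Finset.card_image_of_injective _ Subtype.val_injective).symm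
      _ ≤ _ := Finset.card_le_card h1
      _ ≤ _ := Finset.card_biUnion_le
      _ ≤ ∑ _p ∈ (Ideal.absNorm I).primeFactors, Module.finrank ℚ K := by
          refine Finset.sum_le_sum fun p hp => ?_
          have hp' := Nat.prime_of_mem_primeFactors hp
          rw [dif_pos hp']
          calc (S ⟨p, hp'⟩).card = ∑ _P ∈ S ⟨p, hp'⟩, 1 := by simp
            _ ≤ ∑ P ∈ S ⟨p, hp'⟩, P.inertiaDeg ℤ :=
                Finset.sum_le_sum fun P hP => (hS2 ⟨p, hp'⟩ P hP).1
            _ ≤ _ := hS3 ⟨p, hp'⟩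
      _ = _ := by rw [Finset.sum_const, smul_eq_mul, mul_comm]
  · simp

theorem two_pow_omega_le (n : ℕ) (hn : n ≠ 0) : 2 ^ n.primeFactors.card ≤ n.divisors.card := by
  rw [Nat.card_divisors hn, ← Finset.prod_const]
  refine Finset.prod_le_prod' fun p hp => ?_
  have : n.factorization p ≠ 0 := by
    rw [← Finsupp.mem_support_iff, Nat.support_factorization]
    exact hp
  omega

theorem card_le_cnt (X : Finset (Ideal (𝓞 K))) (n : ℕ) (hX : ∀ I ∈ X, Ideal.absNorm I = n) :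
    X.card ≤ cnt K n := by
  have hfin : {I : Ideal (𝓞 K) | Ideal.absNorm I = n}.Finite := Ideal.finite_setOfPred_absNorm_eq n
  have h1 : cnt K n = {I : Ideal (𝓞 K) | Ideal.absNorm I = n}.ncard := rfl
  rw [h1, ← Set.ncard_coe_finset]
  exact Set.ncard_le_ncard (fun I hI => hX I hI) hfin

theorem dv_sum (K : Type) [Field K] [NumberField K] : ∃ C : ℝ, 0 < C ∧ ∀ (x : ℝ)
    (X : Finset (Ideal (𝓞 K))), 1 ≤ x → (∀ I ∈ X, I ≠ ⊥ ∧ nm I ≤ x) → (X.card : ℝ) ≤ C * x := by
  classical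
  obtain ⟨C, hC0, hC⟩ := Asymptotics.bound_of_isBigO_nat_atTop (cnt_bigO K)
  refine ⟨C, hC0, fun x X hx hX => ?_⟩
  have hf : 1 ≤ ⌊x⌋₊ := Nat.one_le_floor_iff x |>.2 hx
  have h1 := @hC ⌊x⌋₊ (by
    rw [Real.rpow_one]
    positivity)
  rw [Real.rpow_one, Real.norm_of_nonneg (Nat.cast_nonneg _), Real.norm_of_nonneg
    (Finset.sum_nonneg fun _ _ => Nat.cast_nonneg _)] at h1
  have hmaps : ((X : Set (Ideal (𝓞 K)))).MapsTo Ideal.absNorm (Finset.Icc 1 ⌊x⌋₊ : Finset ℕ) := by
    intro I hI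
    have h2 := hX I hI
    rw [Finset.mem_coe, Finset.mem_Icc]
    refine ⟨Nat.one_le_iff_ne_zero.2 fun h => h2.1 (Ideal.absNorm_eq_zero_iff.1 h), ?_⟩
    exact Nat.le_floor h2.2
  have h2 : X.card ≤ ∑ k ∈ Finset.Icc 1 ⌊x⌋₊, cnt K k := by
    rw [Finset.card_eq_sum_card_fiberwise hmaps]
    refine Finset.sum_le_sum fun k _ => card_le_cnt _ _ fun I hI => (Finset.mem_filter.1 hI).2
  calc (X.card : ℝ) ≤ ∑ k ∈ Finset.Icc 1 ⌊x⌋₊, (cnt K k : ℝ) := by exact_mod_cast h2
    _ ≤ C * ⌊x⌋₊ := h1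
    _ ≤ C * x := mul_le_mul_of_nonneg_left (Nat.floor_le (by linarith)) hC0.le

theorem pf_DV : T_DV := by
  classical
  intro K _ _
  refine ⟨fun ε hε => ?_, ?_⟩
  · obtain ⟨C, hC1, hC⟩ := dv_tau (Module.finrank ℚ K) ε hε
    refine ⟨C, hC1, fun n hn X hX => ?_, fun I hI => ?_⟩
    · have h1 : (X.card : ℝ) ≤ cnt K n := by exact_mod_cast card_le_cnt X n hX
      exact h1.trans ((dv_cnt K n (by omega)).trans (hC n hn))
    · have hN : Ideal.absNorm I ≠ 0 := fun h => hI (Ideal.absNorm_eq_zero_iff.1 h)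
      calc (2 : ℝ) ^ (pf I).card ≤
            2 ^ (Module.finrank ℚ K * (Ideal.absNorm I).primeFactors.card) :=
            pow_le_pow_right₀ (by norm_num) (dv_pf I hI)
        _ = (2 ^ (Ideal.absNorm I).primeFactors.card) ^ Module.finrank ℚ K := by
            rw [← pow_mul, mul_comm]
        _ ≤ ((Ideal.absNorm I).divisors.card : ℝ) ^ Module.finrank ℚ K := by
            refine pow_le_pow_left₀ (by positivity) ?_ _
            exact_mod_cast two_pow_omega_le _ hN
        _ ≤ C * nm I ^ ε := hC _ (Nat.one_le_iff_ne_zero.2 hN)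
  · obtain ⟨C, hC0, hC⟩ := dv_sum K
    refine ⟨4 * C, fun x X hx hX => ⟨?_, ?_⟩⟩
    · have := hC x X hx hX
      nlinarith
    · have hmaps : ((X : Set (Ideal (𝓞 K)))).MapsTo (fun I => Nat.log 2 (Ideal.absNorm I))
          (Finset.range (Nat.log 2 ⌊x⌋₊ + 1) : Finset ℕ) := by
        intro I hI
        rw [Finset.mem_coe, Finset.mem_range]
        exact Nat.lt_succ_of_le (Nat.log_mono_right (Nat.le_floor (hX I hI).2))
      have h1 : ∑ I ∈ X, (nm I)⁻¹ = ∑ k ∈ Finset.range (Nat.log 2 ⌊x⌋₊ + 1),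
          ∑ I ∈ X.filter (fun I => Nat.log 2 (Ideal.absNorm I) = k), (nm I)⁻¹ :=
        (Finset.sum_fiberwise_of_maps_to hmaps _).symm
      have h2 : ∀ k ∈ Finset.range (Nat.log 2 ⌊x⌋₊ + 1),
          ∑ I ∈ X.filter (fun I => Nat.log 2 (Ideal.absNorm I) = k), (nm I)⁻¹ ≤ 2 * C := by
        intro k _
        have h3 : ∀ I ∈ X.filter (fun I => Nat.log 2 (Ideal.absNorm I) = k),
            (nm I)⁻¹ ≤ ((2 : ℝ) ^ k)⁻¹ := by
          intro I hI
          rw [Finset.mem_filter] at hI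
          have hN : Ideal.absNorm I ≠ 0 := fun h => (hX I hI.1).1 (Ideal.absNorm_eq_zero_iff.1 h)
          refine inv_anti₀ (by positivity) ?_
          have h4 := Nat.pow_log_le_self 2 hN
          rw [hI.2] at h4
          unfold Pool.Agent.H37.CV.nm
          exact_mod_cast h4
        have h4 : ((X.filter (fun I => Nat.log 2 (Ideal.absNorm I) = k)).card : ℝ) ≤
            C * 2 ^ (k + 1) := by
          refine hC _ _ (one_le_pow₀ (by norm_num)) fun I hI => ?_
          rw [Finset.mem_filter] at hI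
          refine ⟨(hX I hI.1).1, ?_⟩
          have h5 := Nat.lt_pow_succ_log_self (b := 2) (by norm_num) (Ideal.absNorm I)
          rw [hI.2] at h5
          unfold Pool.Agent.H37.CV.nm
          exact_mod_cast h5.le
        refine (Finset.sum_le_sum h3).trans ?_
        rw [Finset.sum_const, nsmul_eq_mul]
        calc _ ≤ C * 2 ^ (k + 1) * ((2 : ℝ) ^ k)⁻¹ :=
              mul_le_mul_of_nonneg_right h4 (by positivity)
          _ = 2 * C := by
              rw [pow_succ]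
              field_simp
      rw [h1]
      refine (Finset.sum_le_sum h2).trans ?_
      rw [Finset.sum_const, nsmul_eq_mul, Finset.card_range]
      have hf : 1 ≤ ⌊x⌋₊ := Nat.one_le_floor_iff x |>.2 hx
      have h3 : (Nat.log 2 ⌊x⌋₊ : ℝ) * Real.log 2 ≤ Real.log x := by
        rw [← Real.log_pow]
        refine Real.log_le_log (by positivity) ?_
        have h4 := Nat.pow_log_le_self 2 (x := ⌊x⌋₊) (by omega)
        calc ((2 : ℝ)) ^ Nat.log 2 ⌊x⌋₊ ≤ (⌊x⌋₊ : ℝ) := by exact_mod_cast h4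
          _ ≤ x := Nat.floor_le (by linarith)
      have h4 : (1 : ℝ) / 2 ≤ Real.log 2 := by
        have := Real.log_two_gt_d9
        linarith
      have h5 : (Nat.log 2 ⌊x⌋₊ : ℝ) ≤ 2 * Real.log x := by
        have h6 : (Nat.log 2 ⌊x⌋₊ : ℝ) * (1 / 2) ≤ (Nat.log 2 ⌊x⌋₊ : ℝ) * Real.log 2 :=
          mul_le_mul_of_nonneg_left h4 (Nat.cast_nonneg _)
        linarith
      push_cast
      nlinarith

end NF

end Pool.Agent.H86.CV
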