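import Pool.Agent.H37.CV.SM
import Pool.Agent.H96.CV.DS

/-! UI: the units of a CM field modulo a divisor of `q`. -/

set_option autoImplicit false

open NumberField Filter Topology

namespace Pool.Agent.H86.CV

open Pool.Agent.H37.CV Pool.Agent.H28.RC Pool.Agent.H25.HK

section gen

variable {R : Type} [CommRing R]

/-- the classes of a set of units -/
def clU (I : Ideal R) (V : Set Rˣ) : Set (R ⧸ I) :=
  (fun u : Rˣ => Ideal.Quotient.mk I (u : R)) '' V

theorem ui_fib {q d : Ideal R} [Finite (R ⧸ q)] [Finite (R ⧸ d)] :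
    (Set.range fun u : Rˣ => Ideal.Quotient.mk q (u : R)).ncard ≤
      (Set.range fun u : Rˣ => Ideal.Quotient.mk d (u : R)).ncard *
        (clU q {u | (u : R) - 1 ∈ d}).ncard := by
  classical
  rw [← Set.ncard_prod]
  choose! a ha using fun (x : R ⧸ q) (hx : x ∈ Set.range fun u : Rˣ =>
    Ideal.Quotient.mk q (u : R)) => hx
  choose! b hb using fun (x : R ⧸ d) (hx : x ∈ Set.range fun u : Rˣ =>
    Ideal.Quotient.mk d (u : R)) => hx
  have hbd : ∀ u : Rˣ, (u : R) * ((b (Ideal.Quotient.mk d (u : R)))⁻¹ : Rˣ) - 1 ∈ d := by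
    intro u
    have h1 := hb (Ideal.Quotient.mk d (u : R)) ⟨u, rfl⟩
    simp only at h1
    generalize b (Ideal.Quotient.mk d (u : R)) = w at h1
    rw [← Ideal.Quotient.eq_zero_iff_mem, map_sub, map_mul, map_one, ← h1]
    rw [← map_mul, Units.mul_inv, map_one, sub_self]
  refine Set.ncard_le_ncard_of_injOn
    (fun x => (Ideal.Quotient.mk d (a x : R),
      Ideal.Quotient.mk q (((a x) * (b (Ideal.Quotient.mk d (a x : R)))⁻¹ : Rˣ) : R))) ?_ ?_
    (Set.toFinite _)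
  · intro x hx
    refine ⟨⟨a x, rfl⟩, ⟨(a x) * (b (Ideal.Quotient.mk d (a x : R)))⁻¹, ?_, rfl⟩⟩
    have := hbd (a x)
    simpa using this
  · intro x hx y hy hxy
    simp only [Prod.mk.injEq] at hxy
    obtain ⟨h1, h2⟩ := hxy
    rw [h1] at h2
    have h3 : Ideal.Quotient.mk q (a x : R) = Ideal.Quotient.mk q (a y : R) := by
      have h4 := congrArg (fun t => t * Ideal.Quotient.mk q
        ((b (Ideal.Quotient.mk d (a y : R)) : Rˣ) : R)) h2
      simp only [← map_mul, ← Units.val_mul, inv_mul_cancel_right] at h4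
      exact h4
    rw [← ha x hx, ← ha y hy]
    exact h3

theorem ui_prod {q c J : Ideal R} {V : Set Rˣ} [Finite (R ⧸ c)] [Finite (R ⧸ J)]
    (h : ∀ u ∈ V, ∀ u' ∈ V, (u : R) - u' ∈ c → (u : R) - u' ∈ J → (u : R) - u' ∈ q) :
    (clU q V).ncard ≤ Nat.card (R ⧸ c) * (clU J V).ncard := by
  classical
  rw [← Set.ncard_univ, ← Set.ncard_prod]
  choose! a ha ha2 using fun (x : R ⧸ q) (hx : x ∈ clU q V) => hx
  refine Set.ncard_le_ncard_of_injOn
    (fun x => (Ideal.Quotient.mk c (a x : R), Ideal.Quotient.mk J (a x : R))) ?_ ?_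
    (Set.toFinite _)
  · intro x hx
    exact ⟨Set.mem_univ _, ⟨a x, ha x hx, rfl⟩⟩
  · intro x hx y hy hxy
    simp only [Prod.mk.injEq] at hxy
    rw [← ha2 x hx, ← ha2 y hy]
    exact Ideal.Quotient.eq.2 (h _ (ha x hx) _ (ha y hy) (Ideal.Quotient.eq.1 hxy.1)
      (Ideal.Quotient.eq.1 hxy.2))

variable (σ : R ≃+* R) (W : Set Rˣ)

/-- the conjugate prime divides `d` -/
theorem ui_c (hW : W.Finite) (hu : ∀ u : Rˣ, ∃ ζ ∈ W, (u : R) = ζ * σ u) {d P : Ideal R}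
    (hP : ∀ x ∈ d, σ x ∈ P) : (clU P {u | (u : R) - 1 ∈ d}).ncard ≤ W.ncard := by
  have h1 : clU P {u | (u : R) - 1 ∈ d} ⊆ (fun u : Rˣ => Ideal.Quotient.mk P (u : R)) '' W := by
    rintro _ ⟨u, hu1, rfl⟩
    obtain ⟨ζ, hζ, hζu⟩ := hu u
    refine ⟨ζ, hζ, ?_⟩
    simp only
    rw [eq_comm, Ideal.Quotient.eq]
    have h2 := hP _ hu1
    rw [map_sub, map_one] at h2
    have h3 : (u : R) - ζ = ζ * (σ u - 1) := by
      nth_rewrite 1 [hζu]
      ring
    rw [h3]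
    exact P.mul_mem_left _ h2
  exact (Set.ncard_le_ncard h1 (hW.image _)).trans (Set.ncard_image_le hW)

/-- the conjugate prime is different -/
theorem ui_b (hW : W.Finite) (hu : ∀ u : Rˣ, ∃ ζ ∈ W, (u : R) = ζ * σ u) {J P P' : Ideal R}
    [Finite (R ⧸ P)] (hP : ∀ x ∈ P, σ x ∈ P') (hJ : ∀ x ∈ P, x ∈ P' → x ∈ J) (V : Set Rˣ) :
    (clU J V).ncard ≤ W.ncard * Nat.card (R ⧸ P) := by
  classical
  rw [← Set.ncard_univ, ← Set.ncard_prod]
  choose! a ha ha2 using fun (x : R ⧸ J) (hx : x ∈ clU J V) => hx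
  choose ζ hζ hζu using hu
  refine Set.ncard_le_ncard_of_injOn
    (fun x => (ζ (a x), Ideal.Quotient.mk P (a x : R))) ?_ ?_ (hW.prod (Set.toFinite _))
  · intro x hx
    exact ⟨hζ _, Set.mem_univ _⟩
  · intro x hx y hy hxy
    simp only [Prod.mk.injEq] at hxy
    obtain ⟨h1, h2⟩ := hxy
    rw [Ideal.Quotient.eq] at h2
    rw [← ha2 x hx, ← ha2 y hy]
    refine Ideal.Quotient.eq.2 (hJ _ h2 ?_)
    have h3 := hP _ h2
    rw [map_sub] at h3
    have h4 : (a x : R) - a y = ζ (a x) * (σ (a x) - σ (a y)) := by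
      rw [mul_sub, ← hζu (a x), h1, ← hζu (a y)]
    rw [h4]
    exact P'.mul_mem_left _ h3

/-- the fixed elements modulo a prime which is its own conjugate -/
theorem ui_fix {P : Ideal R} [P.IsMaximal] [Finite (R ⧸ P)] (hP : ∀ x ∈ P, σ x ∈ P)
    (x₀ : R) (hx₀ : x₀ - σ x₀ ∉ P) :
    (Ideal.Quotient.mk P '' {x : R | x - σ x ∈ P}).ncard ^ 2 ≤ Nat.card (R ⧸ P) := by
  classical
  rw [pow_two, ← Set.ncard_prod, ← Set.ncard_univ]
  refine Set.ncard_le_ncard_of_injOn (fun p => p.1 + p.2 * Ideal.Quotient.mk P x₀)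
    (fun _ _ => Set.mem_univ _) ?_ (Set.toFinite _)
  rintro ⟨_, _⟩ ⟨⟨a, ha, rfl⟩, ⟨b, hb, rfl⟩⟩ ⟨_, _⟩ ⟨⟨a', ha', rfl⟩, ⟨b', hb', rfl⟩⟩ h
  simp only [Set.mem_ofPred_eq] at ha hb ha' hb' h
  rw [← map_mul, ← map_mul, ← map_add, ← map_add, Ideal.Quotient.eq] at h
  by_cases hbb : b - b' ∈ P
  · have h1 : a - a' ∈ P := by
      have h2 : a - a' = (a + b * x₀ - (a' + b' * x₀)) - x₀ * (b - b') := by ring
      rw [h2]
      exact P.sub_mem h (P.mul_mem_left _ hbb)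
    rw [Ideal.Quotient.eq.2 h1, Ideal.Quotient.eq.2 hbb]
  · exfalso
    have h1 := hP _ h
    rw [map_sub, map_add, map_add, map_mul, map_mul] at h1
    -- `(b - b') (x₀ - σ x₀) ∈ P`
    have h2 : (b - b') * (x₀ - σ x₀) ∈ P := by
      have h3 : (b - b') * (x₀ - σ x₀) = (a + b * x₀ - (a' + b' * x₀)) -
          (σ a + σ b * σ x₀ - (σ a' + σ b' * σ x₀)) - (a - σ a) + (a' - σ a') -
          (b - σ b) * σ x₀ + (b' - σ b') * σ x₀ := by ring
      rw [h3]
      refine P.add_mem (P.sub_mem (P.add_mem (P.sub_mem (P.sub_mem h h1) ha) ha') ?_) ?_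
      · exact P.mul_mem_right _ hb
      · exact P.mul_mem_right _ hb'
    rcases (inferInstance : P.IsPrime).mem_or_mem h2 with h3 | h3
    · exact hbb h3
    · exact hx₀ h3

/-- the prime is its own conjugate -/
theorem ui_a (hW : W.Finite) (hu : ∀ u : Rˣ, ∃ ζ ∈ W, (u : R) = ζ * σ u) {P : Ideal R}
    [P.IsMaximal] [Finite (R ⧸ P)] (hσ : ∀ x, σ (σ x) = x) (hP : ∀ x ∈ P, σ x ∈ P)
    (x₀ : R) (hx₀ : x₀ - σ x₀ ∉ P) (V : Set Rˣ) :
    ((clU P V).ncard : ℝ) ≤ 2 * W.ncard * Real.sqrt (Nat.card (R ⧸ P)) := by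
  classical
  obtain ⟨F, hF⟩ : ∃ F : Set (R ⧸ P), F = Ideal.Quotient.mk P '' {x : R | x - σ x ∈ P} :=
    ⟨_, rfl⟩
  have hF1 : (F.ncard : ℝ) ≤ Real.sqrt (Nat.card (R ⧸ P)) := by
    refine Real.le_sqrt_of_sq_le ?_
    rw [hF]
    exact_mod_cast ui_fix σ hP x₀ hx₀
  -- square roots
  have hfin : (W ×ˢ F : Set (Rˣ × (R ⧸ P))).Finite := hW.prod (Set.toFinite _)
  have h1 : clU P V ⊆ ⋃ p ∈ hfin.toFinset, {v : R ⧸ P |
      v ^ 2 = Ideal.Quotient.mk P (p.1 : R) * p.2} := by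
    rintro _ ⟨u, -, rfl⟩
    obtain ⟨ζ, hζ, hζu⟩ := hu u
    rw [Set.mem_iUnion₂]
    refine ⟨(ζ, Ideal.Quotient.mk P ((u : R) * σ u)), ?_, ?_⟩
    · rw [Set.Finite.mem_toFinset]
      refine ⟨hζ, ?_⟩
      rw [hF]
      refine ⟨(u : R) * σ u, ?_, rfl⟩
      simp only [Set.mem_ofPred_eq]
      rw [map_mul, hσ, mul_comm (σ (u : R)), sub_self]
      exact P.zero_mem
    · simp only [Set.mem_ofPred_eq]
      rw [← map_pow, ← map_mul]
      congr 1
      calc (u : R) ^ 2 = u * u := pow_two _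
        _ = (ζ * σ u) * u := by rw [← hζu]
        _ = ζ * (u * σ u) := by ring
  let _ : Field (R ⧸ P) := Ideal.Quotient.field P
  have h2 : ∀ t : R ⧸ P, {v : R ⧸ P | v ^ 2 = t}.ncard ≤ 2 := by
    intro t
    rcases Set.eq_empty_or_nonempty {v : R ⧸ P | v ^ 2 = t} with h | ⟨s, hs⟩
    · rw [h, Set.ncard_empty]
      norm_num
    · have h3 : {v : R ⧸ P | v ^ 2 = t} ⊆ {s, -s} := by
        intro v hv
        simp only [Set.mem_ofPred_eq] at hv hs
        rw [← hs, sq_eq_sq_iff_eq_or_eq_neg] at hv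
        exact hv
      exact (Set.ncard_le_ncard h3 (Set.toFinite _)).trans (Set.ncard_insert_le _ _ |>.trans
        (by rw [Set.ncard_singleton]))
  have h3 : (clU P V).ncard ≤ W.ncard * F.ncard * 2 := by
    calc (clU P V).ncard ≤ (⋃ p ∈ hfin.toFinset, {v : R ⧸ P |
          v ^ 2 = Ideal.Quotient.mk P (p.1 : R) * p.2}).ncard :=
          Set.ncard_le_ncard h1 (Set.toFinite _)
      _ ≤ ∑ p ∈ hfin.toFinset, {v : R ⧸ P |
          v ^ 2 = Ideal.Quotient.mk P (p.1 : R) * p.2}.ncard := Finset.set_ncard_biUnion_le _ _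
      _ ≤ ∑ _p ∈ hfin.toFinset, 2 := Finset.sum_le_sum fun p _ => h2 _
      _ = W.ncard * F.ncard * 2 := by
          rw [Finset.sum_const, smul_eq_mul, ← Set.ncard_eq_toFinset_card _ hfin, Set.ncard_prod]
  calc ((clU P V).ncard : ℝ) ≤ ((W.ncard * F.ncard * 2 : ℕ) : ℝ) := by exact_mod_cast h3
    _ = 2 * W.ncard * F.ncard := by push_cast; ring
    _ ≤ _ := mul_le_mul_of_nonneg_left hF1 (by positivity)

end gen

section NF

variable {K : Type} [Field K] [NumberField K]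

theorem ui_card (I : Ideal (𝓞 K)) : (Nat.card (𝓞 K ⧸ I) : ℝ) = nm I := by
  unfold Pool.Agent.H37.CV.nm
  rw [Ideal.absNorm_apply, Submodule.cardQuot_apply]

theorem ui_fin {I : Ideal (𝓞 K)} (hI : I ≠ ⊥) : Finite (𝓞 K ⧸ I) :=
  Ideal.finiteQuotientOfFreeOfNeBot I hI

theorem ui_unram (K : Type) [Field K] [NumberField K] : ∃ q₀ : ℕ, ∀ q : ℕ, q.Prime → q₀ ≤ q →
    ∀ P : PrI K, ¬ qi K q ≤ P.1 ^ 2 := by
  refine ⟨Ideal.absNorm (differentIdeal ℤ (𝓞 K)) + 1, fun q hq hq0 P h => ?_⟩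
  have hdne : differentIdeal ℤ (𝓞 K) ≠ ⊥ := differentIdeal_ne_bot
  have hqP : qi K q ≤ P.1 := h.trans (Ideal.pow_le_self two_ne_zero)
  have h1 := Pool.Agent.H37.CV.le_np K q hq P hqP
  have hpr : Prime (q : ℤ) := Nat.prime_iff_prime_int.1 hq
  have hmax : (Ideal.span {(q : ℤ)}).IsMaximal :=
    PrincipalIdealRing.isMaximal_of_irreducible hpr.irreducible
  have hmap : (Ideal.span {(q : ℤ)}).map (algebraMap ℤ (𝓞 K)) = qi K q := by
    rw [Ideal.map_span, Set.image_singleton]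
    simp [qi]
  have h2 : P.1 ^ (2 - 1) ∣ differentIdeal ℤ (𝓞 K) :=
    pow_sub_one_dvd_differentIdeal ℤ P.1 2 (p := Ideal.span {(q : ℤ)})
      (by rw [Ne, Ideal.span_singleton_eq_bot]; exact_mod_cast hq.ne_zero)
      (by rw [hmap]; exact Ideal.dvd_iff_le.2 h)
  rw [show 2 - 1 = 1 from rfl, pow_one] at h2
  have h3 := Ideal.absNorm_dvd_absNorm_of_le (Ideal.dvd_iff_le.1 h2)
  have h4 : Ideal.absNorm P.1 ≤ Ideal.absNorm (differentIdeal ℤ (𝓞 K)) := by
    refine Nat.le_of_dvd (Nat.pos_of_ne_zero ?_) h3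
    rw [Ne, Ideal.absNorm_eq_zero_iff]
    exact hdne
  have h5 : q ≤ Ideal.absNorm P.1 := by
    unfold Pool.Agent.H37.CV.np Pool.Agent.H37.CV.nm at h1
    exact_mod_cast h1
  omega

theorem ui_coprime {q : ℕ} (hq : q.Prime) (h : ∀ P : PrI K, ¬ qi K q ≤ P.1 ^ 2)
    {A B : Ideal (𝓞 K)} (hAB : qi K q ≤ A * B) : IsCoprime A B := by
  rw [Ideal.isCoprime_iff_sup_eq]
  by_contra hne
  obtain ⟨P, hP, hle⟩ := Ideal.exists_le_maximal _ hne
  have hA : A ≤ P := le_sup_left.trans hle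
  have hB : B ≤ P := le_sup_right.trans hle
  have h1 : qi K q ≤ P ^ 2 := by
    rw [pow_two]
    exact hAB.trans (Ideal.mul_mono hA hB)
  refine h ⟨P, hP.isPrime, ?_⟩ h1
  rintro rfl
  have : qi K q ≤ ⊥ := h1.trans (by rw [pow_two, Ideal.mul_bot])
  exact Pool.Agent.H37.CV.qi_ne_bot K q hq (le_bot_iff.1 this)

end NF

section CM

variable (K : Type) [Field K] [NumberField K] [IsCMField K]

/-- the complex conjugation of the ring of integers -/
noncomputable def ccj : 𝓞 K ≃+* 𝓞 K :=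
  RingOfIntegers.mapRingEquiv (IsCMField.complexConj K).toRingEquiv

theorem coe_ccj (x : 𝓞 K) : (ccj K x : K) = IsCMField.complexConj K x := rfl

theorem ccj_ccj (x : 𝓞 K) : ccj K (ccj K x) = x := by
  apply RingOfIntegers.ext
  rw [coe_ccj, coe_ccj, IsCMField.complexConj_apply_apply]

theorem ccj_unit (u : (𝓞 K)ˣ) : ∃ ζ ∈ ((Units.torsion K : Subgroup (𝓞 K)ˣ) : Set (𝓞 K)ˣ),
    (u : 𝓞 K) = ζ * ccj K u := by
  refine ⟨(IsCMField.unitsMulComplexConjInv K u : (𝓞 K)ˣ), SetLike.coe_mem _, ?_⟩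
  rw [IsCMField.unitsMulComplexConjInv_apply]
  have h1 : ccj K (u : 𝓞 K) = ((IsCMField.unitsComplexConj K u : (𝓞 K)ˣ) : 𝓞 K) := rfl
  rw [h1, ← Units.val_mul, inv_mul_cancel_right]

theorem exists_ccj_ne : ∃ x : 𝓞 K, x - ccj K x ≠ 0 := by
  by_contra h
  push Not at h
  apply IsCMField.complexConj_ne_one K
  ext x
  obtain ⟨a, b, hb, rfl⟩ := IsFractionRing.div_surjective (A := 𝓞 K) x
  have h1 : ∀ a : 𝓞 K, IsCMField.complexConj K (algebraMap (𝓞 K) K a) = algebraMap (𝓞 K) K a := by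
    intro a
    have h2 := sub_eq_zero.1 (h a)
    have h3 := congrArg (algebraMap (𝓞 K) K) h2
    exact h3.symm
  rw [map_div₀, h1, h1]
  rfl

end CM

/-- UI -/
theorem pf_UI : Pool.Agent.H37.CV.T_UI := by
  classical
  intro K _ _ _
  obtain ⟨q₁, hq₁⟩ := ui_unram K
  obtain ⟨x₀, hx₀⟩ := exists_ccj_ne K
  obtain ⟨W, hWe⟩ : ∃ W : Set (𝓞 K)ˣ, W = ((Units.torsion K : Subgroup (𝓞 K)ˣ) : Set (𝓞 K)ˣ) :=
    ⟨_, rfl⟩
  have hWf : W.Finite := by
    rw [hWe]
    exact Set.finite_coe_iff.1 (inferInstanceAs (Finite (Units.torsion K)))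
  have hu : ∀ u : (𝓞 K)ˣ, ∃ ζ ∈ W, (u : 𝓞 K) = ζ * ccj K u := by
    rw [hWe]
    exact ccj_unit K
  refine ⟨2 * W.ncard, max q₁ (Ideal.absNorm (Ideal.span {x₀ - ccj K x₀}) + 1),
    fun q hq hq0 d hd hdq => ?_⟩
  have hsq := hq₁ q hq ((le_max_left _ _).trans hq0)
  have hqx : Ideal.absNorm (Ideal.span {x₀ - ccj K x₀}) + 1 ≤ q := (le_max_right _ _).trans hq0
  have hqb := Pool.Agent.H37.CV.qi_ne_bot K q hq
  have hq1 : (1 : ℝ) ≤ q := by exact_mod_cast hq.one_lt.le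
  have hqs : (q : ℝ) ^ (-(1 / 2) : ℝ) = (Real.sqrt q)⁻¹ := by
    rw [Real.rpow_neg (by linarith), ← Real.sqrt_eq_rpow]
  have hs1 : 1 ≤ Real.sqrt q := Real.one_le_sqrt.2 hq1
  have hss : Real.sqrt q * Real.sqrt q = q := Real.mul_self_sqrt (by linarith)
  -- the cofactor
  obtain ⟨c, hc⟩ := Ideal.dvd_iff_le.2 hd
  have hcb : c ≠ ⊥ := by rintro rfl; rw [Ideal.mul_bot] at hc; exact hqb hc
  have hdb : d ≠ ⊥ := by rintro rfl; rw [Ideal.bot_mul] at hc; exact hqb hc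
  have hct : c ≠ ⊤ := by rintro rfl; rw [Ideal.mul_top] at hc; exact hdq hc.symm
  obtain ⟨P, hPm, hcP⟩ := Ideal.exists_le_maximal c hct
  have hPb : P ≠ ⊥ := by rintro rfl; exact hcb (le_bot_iff.1 hcP)
  have hqc : qi K q ≤ c := by rw [hc]; exact Ideal.mul_le_right
  have hqP : qi K q ≤ P := hqc.trans hcP
  have hNP : (q : ℝ) ≤ nm P := Pool.Agent.H37.CV.le_np K q hq ⟨P, hPm.isPrime, hPb⟩ hqP
  -- the conjugate prime
  obtain ⟨P', hP'⟩ : ∃ P' : Ideal (𝓞 K), P' = P.comap (ccj K) := ⟨_, rfl⟩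
  have hP1 : ∀ x ∈ P, ccj K x ∈ P' := by
    intro x hx
    rw [hP', Ideal.mem_comap, ccj_ccj]
    exact hx
  have hP2 : ∀ x ∈ P', ccj K x ∈ P := by
    intro x hx
    rw [hP', Ideal.mem_comap] at hx
    exact hx
  have hqP' : qi K q ≤ P' := by
    unfold qi
    rw [Ideal.span_singleton_le_iff_mem, hP', Ideal.mem_comap, map_natCast]
    exact hqP (Ideal.mem_span_singleton_self _)
  have hP'pr : P'.IsPrime := by rw [hP']; exact Ideal.IsPrime.comap _
  have hP'b : P' ≠ ⊥ := by rintro h; rw [h] at hqP'; exact hqb (le_bot_iff.1 hqP')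
  have hP'm : P'.IsMaximal := hP'pr.isMaximal hP'b
  have hNP' : (q : ℝ) ≤ nm P' := Pool.Agent.H37.CV.le_np K q hq ⟨P', hP'pr, hP'b⟩ hqP'
  -- the key estimate
  have key : ∀ J c' : Ideal (𝓞 K), c = J * c' → ∀ B : ℝ, 0 ≤ B →
      ((clU J {u : (𝓞 K)ˣ | (u : 𝓞 K) - 1 ∈ d}).ncard : ℝ) ≤ B → B ≤ 2 * W.ncard *
        (nm J * (Real.sqrt q)⁻¹) →
      ((clU (qi K q) {u : (𝓞 K)ˣ | (u : 𝓞 K) - 1 ∈ d}).ncard : ℝ) ≤
        2 * W.ncard * (nm c * (Real.sqrt q)⁻¹) := by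
    intro J c' hcJ B hB0 hB1 hB2
    have hJb : J ≠ ⊥ := by rintro rfl; rw [Ideal.bot_mul] at hcJ; exact hcb hcJ
    have hc'b : c' ≠ ⊥ := by rintro rfl; rw [Ideal.mul_bot] at hcJ; exact hcb hcJ
    have : Finite (𝓞 K ⧸ J) := ui_fin hJb
    have : Finite (𝓞 K ⧸ c') := ui_fin hc'b
    have hco1 : IsCoprime J c' := ui_coprime hq hsq (by rw [← hcJ]; exact hqc)
    have hco2 : IsCoprime d (J * c') := ui_coprime hq hsq (by rw [← hcJ, ← hc])
    have h1 := ui_prod (q := qi K q) (c := c') (J := J)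
      (V := {u : (𝓞 K)ˣ | (u : 𝓞 K) - 1 ∈ d}) (by
        intro u hu1 u' hu1' h2 h3
        have h4 : (u : 𝓞 K) - u' ∈ d := by
          have h5 : (u : 𝓞 K) - u' = (u - 1) - (u' - 1) := by ring
          rw [h5]
          exact d.sub_mem hu1 hu1'
        have h5 : (u : 𝓞 K) - u' ∈ J * c' := by
          rw [Ideal.mul_eq_inf_of_isCoprime hco1]
          exact ⟨h3, h2⟩
        rw [hc, hcJ, Ideal.mul_eq_inf_of_isCoprime hco2]
        exact ⟨h4, h5⟩)
    have hNc : nm c = nm J * nm c' := by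
      rw [hcJ]
      unfold Pool.Agent.H37.CV.nm
      rw [map_mul]
      push_cast
      rfl
    have hNc'0 : 0 ≤ nm c' := Nat.cast_nonneg _
    calc ((clU (qi K q) {u : (𝓞 K)ˣ | (u : 𝓞 K) - 1 ∈ d}).ncard : ℝ) ≤
        nm c' * ((clU J {u : (𝓞 K)ˣ | (u : 𝓞 K) - 1 ∈ d}).ncard : ℝ) := by
          rw [← ui_card]
          exact_mod_cast h1
      _ ≤ nm c' * (2 * W.ncard * (nm J * (Real.sqrt q)⁻¹)) :=
          mul_le_mul_of_nonneg_left (hB1.trans hB2) hNc'0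
      _ = _ := by rw [hNc]; ring
  have hmain : ((clU (qi K q) {u : (𝓞 K)ˣ | (u : 𝓞 K) - 1 ∈ d}).ncard : ℝ) ≤
      2 * W.ncard * (nm c * (Real.sqrt q)⁻¹) := by
    have hfP : Finite (𝓞 K ⧸ P) := ui_fin hPb
    have hW0 : (0 : ℝ) ≤ W.ncard := Nat.cast_nonneg _
    by_cases h1 : d ≤ P'
    · -- the conjugate prime divides `d`
      obtain ⟨c', hc'⟩ := Ideal.dvd_iff_le.2 hcP
      have h2 := ui_c (ccj K) W hWf hu (d := d) (P := P) fun x hx => hP2 x (h1 hx)
      refine key P c' hc' W.ncard hW0 (by exact_mod_cast h2) ?_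
      have h3 : 1 ≤ nm P * (Real.sqrt q)⁻¹ := by
        rw [← div_eq_mul_inv, le_div_iff₀ (by linarith)]
        nlinarith
      nlinarith
    · by_cases h2 : P' = P
      · -- the prime is its own conjugate
        obtain ⟨c', hc'⟩ := Ideal.dvd_iff_le.2 hcP
        have hx : x₀ - ccj K x₀ ∉ P := by
          intro hx
          have h3 : Ideal.absNorm P ∣ Ideal.absNorm (Ideal.span {x₀ - ccj K x₀}) :=
            Ideal.absNorm_dvd_absNorm_of_le (by rwa [Ideal.span_singleton_le_iff_mem])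
          have h4 : Ideal.absNorm P ≤ Ideal.absNorm (Ideal.span {x₀ - ccj K x₀}) := by
            refine Nat.le_of_dvd (Nat.pos_of_ne_zero ?_) h3
            rw [Ne, Ideal.absNorm_eq_zero_iff, Ideal.span_singleton_eq_bot]
            exact hx₀
          have h5 : q ≤ Ideal.absNorm P := by
            unfold Pool.Agent.H37.CV.nm at hNP
            exact_mod_cast hNP
          omega
        have h3 := ui_a (ccj K) W hWf hu (P := P) (ccj_ccj K) (fun x hx => by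
          have := hP1 x hx
          rwa [h2] at this) x₀ hx {u : (𝓞 K)ˣ | (u : 𝓞 K) - 1 ∈ d}
        rw [ui_card] at h3
        refine key P c' hc' _ (by positivity) h3 ?_
        have h4 : Real.sqrt (nm P) ≤ nm P * (Real.sqrt q)⁻¹ := by
          rw [← div_eq_mul_inv, le_div_iff₀ (by linarith)]
          have h5 : Real.sqrt q ≤ Real.sqrt (nm P) := Real.sqrt_le_sqrt hNP
          have h6 : Real.sqrt (nm P) * Real.sqrt (nm P) = nm P :=
            Real.mul_self_sqrt (by linarith)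
          have h7 := Real.sqrt_nonneg (nm P)
          nlinarith
        exact mul_le_mul_of_nonneg_left h4 (by positivity)
      · -- both primes divide `c`
        have h3 : c ≤ P' := by
          have h4 : d * c ≤ P' := by rw [← hc]; exact hqP'
          rcases (Ideal.IsPrime.mul_le hP'pr).1 h4 with h5 | h5
          · exact absurd h5 h1
          · exact h5
        have hco : IsCoprime P P' := by
          rw [Ideal.isCoprime_iff_sup_eq]
          exact Ideal.IsMaximal.coprime_of_ne hPm hP'm fun h => h2 h.symm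
        have h4 : c ≤ P * P' := by
          rw [Ideal.mul_eq_inf_of_isCoprime hco]
          exact le_inf hcP h3
        obtain ⟨c', hc'⟩ := Ideal.dvd_iff_le.2 h4
        have h5 := ui_b (ccj K) W hWf hu (J := P * P') (P := P) (P' := P') hP1 (fun x hx hx' => by
          rw [Ideal.mul_eq_inf_of_isCoprime hco]
          exact ⟨hx, hx'⟩) {u : (𝓞 K)ˣ | (u : 𝓞 K) - 1 ∈ d}
        refine key (P * P') c' hc' (W.ncard * nm P) (by
          have : 0 ≤ nm P := by linarith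
          positivity) (by rw [← ui_card]; exact_mod_cast h5) ?_
        have hN : nm (P * P') = nm P * nm P' := by
          unfold Pool.Agent.H37.CV.nm
          rw [map_mul]
          push_cast
          rfl
        rw [hN]
        have h6 : 1 ≤ nm P' * (Real.sqrt q)⁻¹ := by
          rw [← div_eq_mul_inv, le_div_iff₀ (by linarith)]
          nlinarith
        have h7 : 0 ≤ nm P := by linarith
        calc (W.ncard : ℝ) * nm P ≤ W.ncard * nm P * (nm P' * (Real.sqrt q)⁻¹) :=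
              le_mul_of_one_le_right (by positivity) h6
          _ ≤ 2 * (W.ncard * nm P * (nm P' * (Real.sqrt q)⁻¹)) := by
              have : 0 ≤ W.ncard * nm P * (nm P' * (Real.sqrt q)⁻¹) := by positivity
              linarith
          _ = _ := by ring
  -- the fibres
  have hf1 : Finite (𝓞 K ⧸ qi K q) := ui_fin hqb
  have hf2 : Finite (𝓞 K ⧸ d) := ui_fin hdb
  have h1 : (uc (qi K q) : ℝ) ≤ uc d *
      ((clU (qi K q) {u : (𝓞 K)ˣ | (u : 𝓞 K) - 1 ∈ d}).ncard : ℝ) := by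
    have := ui_fib (R := 𝓞 K) (q := qi K q) (d := d)
    unfold uc
    exact_mod_cast this
  have hN : nm c * nm d = (q : ℝ) ^ Module.finrank ℚ K := by
    rw [← Pool.Agent.H96.CV.nm_qi, hc]
    unfold Pool.Agent.H37.CV.nm
    rw [map_mul]
    push_cast
    ring
  have hd0 : 0 ≤ nm d := Nat.cast_nonneg _
  have hu0 : (0 : ℝ) ≤ uc d := Nat.cast_nonneg _
  rw [hqs]
  calc (uc (qi K q) : ℝ) * nm d ≤
      (uc d * ((clU (qi K q) {u : (𝓞 K)ˣ | (u : 𝓞 K) - 1 ∈ d}).ncard : ℝ)) * nm d :=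
        mul_le_mul_of_nonneg_right h1 hd0
    _ ≤ (uc d * (2 * W.ncard * (nm c * (Real.sqrt q)⁻¹))) * nm d :=
        mul_le_mul_of_nonneg_right (mul_le_mul_of_nonneg_left hmain hu0) hd0
    _ = 2 * W.ncard * (Real.sqrt q)⁻¹ * (nm c * nm d) * uc d := by ring
    _ = _ := by rw [hN]

end Pool.Agent.H86.CV
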