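import Pool.Agent.H96.CV.LS
import Pool.Agent.H3.CV.GC

/-! GU: upper bounds of Selberg's sum. -/

set_option autoImplicit false

open NumberField Filter Topology

namespace Pool.Agent.H86.CV

open Pool.Agent.H37.CV Pool.Agent.H28.RC Pool.Agent.H25.HK Pool.Agent.H96.CV

section GU

variable {K : Type} [Field K] [NumberField K]

theorem gu_half_le_log_two : (1 : ℝ) / 2 ≤ Real.log 2 := by
  have := Real.log_two_gt_d9
  linarith

/-- the harmonic sum over a range -/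
theorem gu_range (C : ℝ) (hC0 : 0 ≤ C) (hC : ∀ (x : ℝ) (X : Finset (Ideal (𝓞 K))), 1 ≤ x →
    (∀ I ∈ X, I ≠ ⊥ ∧ nm I ≤ x) → (X.card : ℝ) ≤ C * x) (M R : ℝ) (hR : 1 ≤ R)
    (X : Finset (Ideal (𝓞 K))) (hX : ∀ I ∈ X, I ≠ ⊥ ∧ M / R < nm I ∧ nm I ≤ M) :
    ∑ I ∈ X, (nm I)⁻¹ ≤ 4 * C * (1 + Real.log R) := by
  classical
  have hlR : 0 ≤ Real.log R := Real.log_nonneg hR
  have hR0 : 0 < R := by linarith
  rcases X.eq_empty_or_nonempty with rfl | ⟨I₀, hI₀⟩
  · rw [Finset.sum_empty]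
    positivity
  have hM : 1 ≤ M := (one_le_nm (hX I₀ hI₀).1).trans (hX I₀ hI₀).2.2
  have hM0 : 0 < M := by linarith
  have hq : ∀ I ∈ X, 1 ≤ M / nm I := by
    intro I hI
    rw [le_div_iff₀ (nm_pos (hX I hI).1), one_mul]
    exact (hX I hI).2.2
  have hlog : ∀ I ∈ X, (2 : ℝ) ^ Nat.log 2 ⌊M / nm I⌋₊ ≤ M / nm I ∧
      M / nm I < 2 ^ (Nat.log 2 ⌊M / nm I⌋₊ + 1) := by
    intro I hI
    have h1 := hq I hI
    have h2 : ⌊M / nm I⌋₊ ≠ 0 := (Nat.floor_pos.2 h1).ne'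
    constructor
    · have h3 := Nat.pow_log_le_self 2 h2
      calc (2 : ℝ) ^ Nat.log 2 ⌊M / nm I⌋₊ ≤ (⌊M / nm I⌋₊ : ℝ) := by exact_mod_cast h3
        _ ≤ M / nm I := Nat.floor_le (by linarith)
    · have h3 := Nat.lt_pow_succ_log_self (b := 2) (by norm_num) ⌊M / nm I⌋₊
      have h4 : ⌊M / nm I⌋₊ + 1 ≤ 2 ^ (Nat.log 2 ⌊M / nm I⌋₊ + 1) := h3
      calc M / nm I < ⌊M / nm I⌋₊ + 1 := Nat.lt_floor_add_one _
        _ ≤ _ := by exact_mod_cast h4
  have hmaps : ∀ I ∈ X, Nat.log 2 ⌊M / nm I⌋₊ ∈ Finset.range (Nat.log 2 ⌊R⌋₊ + 1) := by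
    intro I hI
    rw [Finset.mem_range]
    refine Nat.lt_succ_of_le (Nat.log_mono_right (Nat.floor_le_floor ?_))
    have h1 := (hX I hI).2.1
    rw [div_lt_iff₀ hR0] at h1
    rw [div_le_iff₀ (nm_pos (hX I hI).1)]
    linarith
  rw [← Finset.sum_fiberwise_of_maps_to hmaps]
  have h2 : ∀ k ∈ Finset.range (Nat.log 2 ⌊R⌋₊ + 1),
      ∑ I ∈ X.filter (fun I => Nat.log 2 ⌊M / nm I⌋₊ = k), (nm I)⁻¹ ≤ 2 * C := by
    intro k _
    rcases (X.filter (fun I => Nat.log 2 ⌊M / nm I⌋₊ = k)).eq_empty_or_nonempty with h | ⟨J, hJ⟩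
    · rw [h, Finset.sum_empty]
      positivity
    have hb : ∀ I ∈ X.filter (fun I => Nat.log 2 ⌊M / nm I⌋₊ = k), nm I ≤ M / 2 ^ k ∧
        (nm I)⁻¹ ≤ 2 ^ (k + 1) / M := by
      intro I hI
      rw [Finset.mem_filter] at hI
      have h3 := hlog I hI.1
      rw [hI.2] at h3
      have h4 := nm_pos (hX I hI.1).1
      constructor
      · rw [le_div_iff₀ (by positivity)]
        have := h3.1
        rw [le_div_iff₀ h4] at this
        linarith
      · rw [le_div_iff₀ hM0, inv_mul_eq_div]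
        exact h3.2.le
    have h3 : 1 ≤ M / 2 ^ k := (one_le_nm (hX J (Finset.mem_filter.1 hJ).1).1).trans (hb J hJ).1
    have h4 := hC (M / 2 ^ k) (X.filter (fun I => Nat.log 2 ⌊M / nm I⌋₊ = k)) h3
      fun I hI => ⟨(hX I (Finset.mem_filter.1 hI).1).1, (hb I hI).1⟩
    refine (Finset.sum_le_sum fun I hI => (hb I hI).2).trans ?_
    rw [Finset.sum_const, nsmul_eq_mul]
    calc _ ≤ C * (M / 2 ^ k) * (2 ^ (k + 1) / M) :=
          mul_le_mul_of_nonneg_right h4 (by positivity)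
      _ = 2 * C := by
          rw [pow_succ]
          field_simp
  refine (Finset.sum_le_sum h2).trans ?_
  rw [Finset.sum_const, nsmul_eq_mul, Finset.card_range]
  have hf : 1 ≤ ⌊R⌋₊ := Nat.one_le_floor_iff R |>.2 hR
  have h3 : (Nat.log 2 ⌊R⌋₊ : ℝ) * Real.log 2 ≤ Real.log R := by
    rw [← Real.log_pow]
    refine Real.log_le_log (by positivity) ?_
    have h4 := Nat.pow_log_le_self 2 (x := ⌊R⌋₊) (by omega)
    calc ((2 : ℝ)) ^ Nat.log 2 ⌊R⌋₊ ≤ (⌊R⌋₊ : ℝ) := by exact_mod_cast h4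
      _ ≤ R := Nat.floor_le (by linarith)
  have h5 : (Nat.log 2 ⌊R⌋₊ : ℝ) ≤ 2 * Real.log R := by
    have h6 : (Nat.log 2 ⌊R⌋₊ : ℝ) * (1 / 2) ≤ (Nat.log 2 ⌊R⌋₊ : ℝ) * Real.log 2 :=
      mul_le_mul_of_nonneg_left gu_half_le_log_two (Nat.cast_nonneg _)
    linarith
  push_cast
  nlinarith

/-- the sum of `N(I) ^ (-3/2)` -/
theorem gu_conv (C : ℝ) (hC0 : 0 ≤ C) (hC : ∀ (x : ℝ) (X : Finset (Ideal (𝓞 K))), 1 ≤ x →
    (∀ I ∈ X, I ≠ ⊥ ∧ nm I ≤ x) → (X.card : ℝ) ≤ C * x)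
    (X : Finset (Ideal (𝓞 K))) (hX : ∀ I ∈ X, I ≠ ⊥) :
    ∑ I ∈ X, (nm I) ^ (-(3 / 2) : ℝ) ≤ 2 * C * (1 - (2 : ℝ) ^ (-(1 / 2) : ℝ))⁻¹ := by
  classical
  obtain ⟨a, ha⟩ : ∃ a : ℝ, a = (2 : ℝ) ^ (-(1 / 2) : ℝ) := ⟨_, rfl⟩
  have ha0 : 0 < a := by rw [ha]; positivity
  have ha1 : a < 1 := by
    rw [ha]
    exact Real.rpow_lt_one_of_one_lt_of_neg (by norm_num) (by norm_num)
  have ha2 : (2 : ℝ) ^ (-(3 / 2) : ℝ) * 2 = a := by
    rw [ha]
    calc (2 : ℝ) ^ (-(3 / 2) : ℝ) * 2 = (2 : ℝ) ^ (-(3 / 2) : ℝ) * (2 : ℝ) ^ (1 : ℝ) := by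
          rw [Real.rpow_one]
      _ = (2 : ℝ) ^ (-(1 / 2) : ℝ) := by
          rw [← Real.rpow_add (by norm_num)]
          norm_num
  rw [← ha]
  obtain ⟨B, hB⟩ : ∃ B : ℕ, ∀ I ∈ X, Nat.log 2 (Ideal.absNorm I) < B := by
    refine ⟨∑ I ∈ X, (Nat.log 2 (Ideal.absNorm I) + 1), fun I hI => ?_⟩
    have := Finset.single_le_sum (f := fun I => Nat.log 2 (Ideal.absNorm I) + 1)
      (fun _ _ => Nat.zero_le _) hI
    exact lt_of_lt_of_le (Nat.lt_succ_self _) this
  have hmaps : ∀ I ∈ X, Nat.log 2 (Ideal.absNorm I) ∈ Finset.range B := fun I hI =>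
    Finset.mem_range.2 (hB I hI)
  rw [← Finset.sum_fiberwise_of_maps_to hmaps]
  have h2 : ∀ k ∈ Finset.range B,
      ∑ I ∈ X.filter (fun I => Nat.log 2 (Ideal.absNorm I) = k), (nm I) ^ (-(3 / 2) : ℝ) ≤
        2 * C * a ^ k := by
    intro k _
    have hb : ∀ I ∈ X.filter (fun I => Nat.log 2 (Ideal.absNorm I) = k),
        nm I ≤ 2 ^ (k + 1) ∧ (nm I) ^ (-(3 / 2) : ℝ) ≤ ((2 : ℝ) ^ (-(3 / 2) : ℝ)) ^ k := by
      intro I hI
      rw [Finset.mem_filter] at hI
      have hN : Ideal.absNorm I ≠ 0 := fun h => (hX I hI.1) (Ideal.absNorm_eq_zero_iff.1 h)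
      have h4 := Nat.pow_log_le_self 2 hN
      have h5 := Nat.lt_pow_succ_log_self (b := 2) (by norm_num) (Ideal.absNorm I)
      rw [hI.2] at h4 h5
      have h6 : (2 : ℝ) ^ k ≤ nm I := by unfold Pool.Agent.H37.CV.nm; exact_mod_cast h4
      refine ⟨by unfold Pool.Agent.H37.CV.nm; exact_mod_cast h5.le, ?_⟩
      calc (nm I) ^ (-(3 / 2) : ℝ) ≤ ((2 : ℝ) ^ k) ^ (-(3 / 2) : ℝ) :=
            Real.rpow_le_rpow_of_nonpos (by positivity) h6 (by norm_num)
        _ = ((2 : ℝ) ^ (-(3 / 2) : ℝ)) ^ k := by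
            rw [← Real.rpow_natCast, ← Real.rpow_natCast, ← Real.rpow_mul (by norm_num),
              ← Real.rpow_mul (by norm_num), mul_comm]
    have h4 := hC (2 ^ (k + 1)) (X.filter (fun I => Nat.log 2 (Ideal.absNorm I) = k))
      (one_le_pow₀ (by norm_num)) fun I hI => ⟨hX I (Finset.mem_filter.1 hI).1, (hb I hI).1⟩
    refine (Finset.sum_le_sum fun I hI => (hb I hI).2).trans ?_
    rw [Finset.sum_const, nsmul_eq_mul]
    calc _ ≤ C * 2 ^ (k + 1) * ((2 : ℝ) ^ (-(3 / 2) : ℝ)) ^ k :=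
          mul_le_mul_of_nonneg_right h4 (by positivity)
      _ = 2 * C * ((2 : ℝ) ^ (-(3 / 2) : ℝ) * 2) ^ k := by
          rw [mul_pow, pow_succ]
          ring
      _ = 2 * C * a ^ k := by rw [ha2]
  refine (Finset.sum_le_sum h2).trans ?_
  rw [← Finset.mul_sum]
  refine mul_le_mul_of_nonneg_left ?_ (by positivity)
  rw [← tsum_geometric_of_lt_one ha0.le ha1]
  exact (summable_geometric_of_lt_one ha0.le ha1).sum_le_tsum _ fun k _ => by positivity

theorem gu_primes (B : ℝ) (hB : ∀ X : Finset (Ideal (𝓞 K)), (∀ I ∈ X, I ≠ ⊥) →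
    ∑ I ∈ X, (nm I) ^ (-(3 / 2) : ℝ) ≤ B) (X : Finset (PrI K)) :
    ∑ P ∈ X, (np P) ^ (-(3 / 2) : ℝ) ≤ B := by
  classical
  have h1 := hB (X.map ⟨Subtype.val, Subtype.val_injective⟩) (by
    intro I hI
    obtain ⟨P, -, rfl⟩ := Finset.mem_map.1 hI
    exact P.2.2)
  rwa [Finset.sum_map] at h1

/-- `1 / φ(S)` in terms of the subsets -/
theorem gu_inv_fS (S : Finset (PrI K)) :
    (fS np S)⁻¹ = (nS np S)⁻¹ * ∑ T ∈ S.powerset, (fS np T)⁻¹ := by
  classical
  have h1 : ∑ T ∈ S.powerset, (fS np T)⁻¹ = ∏ P ∈ S, (1 + (np P - 1)⁻¹) := by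
    rw [Finset.prod_one_add]
    refine Finset.sum_congr rfl fun T _ => ?_
    unfold fS
    rw [Finset.prod_inv_distrib]
  rw [h1]
  unfold fS nS
  rw [← Finset.prod_inv_distrib, ← Finset.prod_inv_distrib, ← Finset.prod_mul_distrib]
  refine Finset.prod_congr rfl fun P _ => ?_
  have h2 := two_le_np P
  have h3 : np P - 1 ≠ 0 := by intro h; linarith
  have h4 : np P ≠ 0 := by intro h; linarith
  field_simp
  ring

theorem gu_idS_inj {S T : Finset (PrI K)} (h : idS S = idS T) : S = T := by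
  have key : ∀ S T : Finset (PrI K), idS S = idS T → S ⊆ T := by
    intro S T h P hP
    refine Pool.Agent.H3.CV.idS_le ?_
    rw [← h]
    have : P.1 ∣ idS S := Finset.dvd_prod_of_mem (fun P : PrI K => P.1) hP
    exact Ideal.dvd_iff_le.1 this
  exact Finset.Subset.antisymm (key S T h) (key T S h.symm)

end GU

theorem pf_GU (hDV : T_DV) : T_GU := by
  classical
  intro K _ _
  obtain ⟨-, C0, hC0⟩ := hDV K
  obtain ⟨C, hCnn, hC⟩ : ∃ C : ℝ, 0 ≤ C ∧ ∀ (x : ℝ) (X : Finset (Ideal (𝓞 K))), 1 ≤ x →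
      (∀ I ∈ X, I ≠ ⊥ ∧ nm I ≤ x) → (X.card : ℝ) ≤ C * x :=
    ⟨max C0 0, le_max_right _ _, fun x X hx hX => ((hC0 x X hx hX).1).trans
      (mul_le_mul_of_nonneg_right (le_max_left _ _) (by linarith))⟩
  obtain ⟨B, hBeq⟩ : ∃ B : ℝ, B = 2 * C * (1 - (2 : ℝ) ^ (-(1 / 2) : ℝ))⁻¹ := ⟨_, rfl⟩
  have hB := gu_primes (K := K) B (fun X hX => by rw [hBeq]; exact gu_conv C hCnn hC X hX)
  have hB0 : 0 ≤ B := by simpa using hB ∅
  -- the product over the primes
  have hprod : ∀ A : Finset (PrI K), ∑ T ∈ A.powerset, (fS np T)⁻¹ * (nS np T)⁻¹ ≤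
      Real.exp (2 * B) := by
    intro A
    have h1 : ∑ T ∈ A.powerset, (fS np T)⁻¹ * (nS np T)⁻¹ =
        ∏ P ∈ A, (1 + (np P - 1)⁻¹ * (np P)⁻¹) := by
      rw [Finset.prod_one_add]
      refine Finset.sum_congr rfl fun T _ => ?_
      unfold fS nS
      rw [← Finset.prod_inv_distrib, ← Finset.prod_inv_distrib, ← Finset.prod_mul_distrib]
    have h2 : ∀ P : PrI K, (np P - 1)⁻¹ * (np P)⁻¹ ≤ 2 * (np P) ^ (-(3 / 2) : ℝ) := by
      intro P
      have h3 := two_le_np P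
      have h4 : (np P - 1)⁻¹ ≤ 2 * (np P)⁻¹ := by
        rw [← div_eq_mul_inv, le_div_iff₀ (by linarith), inv_mul_le_iff₀ (by linarith)]
        linarith
      have h5 : (np P)⁻¹ * (np P)⁻¹ ≤ (np P) ^ (-(3 / 2) : ℝ) := by
        have h6 : (np P)⁻¹ * (np P)⁻¹ = (np P) ^ (-2 : ℝ) := by
          rw [Real.rpow_neg (by linarith), Real.rpow_two, pow_two, mul_inv]
        rw [h6]
        exact Real.rpow_le_rpow_of_exponent_le (by linarith) (by norm_num)
      calc (np P - 1)⁻¹ * (np P)⁻¹ ≤ 2 * (np P)⁻¹ * (np P)⁻¹ :=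
            mul_le_mul_of_nonneg_right h4 (by positivity)
        _ = 2 * ((np P)⁻¹ * (np P)⁻¹) := by ring
        _ ≤ _ := by linarith
    rw [h1]
    calc ∏ P ∈ A, (1 + (np P - 1)⁻¹ * (np P)⁻¹) ≤
        ∏ P ∈ A, Real.exp (2 * (np P) ^ (-(3 / 2) : ℝ)) := by
          refine Finset.prod_le_prod (fun P _ => ?_) fun P _ => ?_
          · have h3 := two_le_np P
            have : 0 ≤ (np P - 1)⁻¹ := inv_nonneg.2 (by linarith)
            have : 0 ≤ (np P)⁻¹ := inv_nonneg.2 (by linarith)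
            positivity
          · have := Real.add_one_le_exp (2 * (np P) ^ (-(3 / 2) : ℝ))
            have := h2 P
            linarith
      _ = Real.exp (∑ P ∈ A, 2 * (np P) ^ (-(3 / 2) : ℝ)) := (Real.exp_sum _ _).symm
      _ ≤ Real.exp (2 * B) := by
          refine Real.exp_le_exp.2 ?_
          rw [← Finset.mul_sum]
          have := hB A
          linarith
  obtain ⟨C1, hC1⟩ : ∃ C1 : ℝ, C1 = Real.exp (2 * B) * (4 * C) := ⟨_, rfl⟩
  have hC10 : 0 ≤ C1 := by rw [hC1]; positivity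
  have hmain : ∀ M R : ℝ, 1 ≤ M → 1 ≤ R →
      GS np (PM K M) M - GS np (PM K M) (M / R) ≤ C1 * (1 + Real.log R) := by
    intro M R hM hR
    have hR0 : 0 < R := by linarith
    have hlR : 0 ≤ Real.log R := Real.log_nonneg hR
    have hMR : M / R ≤ M := div_le_self (by linarith) hR
    have hsub : DS np (PM K M) (M / R) ⊆ DS np (PM K M) M := by
      intro S hS
      unfold DS at hS ⊢
      rw [Finset.mem_filter] at hS ⊢
      exact ⟨hS.1, hS.2.trans hMR⟩
    unfold GS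
    rw [← Finset.sum_sdiff hsub, add_sub_cancel_right]
    obtain ⟨D, hD⟩ : ∃ D : Finset (Finset (PrI K)),
      D = DS np (PM K M) M \ DS np (PM K M) (M / R) := ⟨_, rfl⟩
    rw [← hD]
    have hDm : ∀ S ∈ D, S ⊆ PM K M ∧ M / R < nS np S ∧ nS np S ≤ M := by
      intro S hS
      rw [hD, Finset.mem_sdiff] at hS
      unfold DS at hS
      rw [Finset.mem_filter, Finset.mem_filter, Finset.mem_powerset] at hS
      refine ⟨hS.1.1, ?_, hS.1.2⟩
      by_contra h
      exact hS.2 ⟨hS.1.1, not_lt.1 h⟩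
    have h1 : ∑ S ∈ D, (fS np S)⁻¹ = ∑ T ∈ (PM K M).powerset, (fS np T)⁻¹ *
        ∑ S ∈ D.filter (fun S => T ⊆ S), (nS np S)⁻¹ := by
      calc ∑ S ∈ D, (fS np S)⁻¹ = ∑ S ∈ D, ∑ T ∈ (PM K M).powerset,
            (if T ⊆ S then (fS np T)⁻¹ * (nS np S)⁻¹ else 0) := by
            refine Finset.sum_congr rfl fun S hS => ?_
            rw [gu_inv_fS, Finset.mul_sum, ← Finset.sum_filter]
            refine Finset.sum_congr ?_ fun T _ => mul_comm _ _
            ext T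
            rw [Finset.mem_powerset, Finset.mem_filter, Finset.mem_powerset]
            exact ⟨fun h => ⟨h.trans (hDm S hS).1, h⟩, fun h => h.2⟩
        _ = _ := by
            rw [Finset.sum_comm]
            refine Finset.sum_congr rfl fun T _ => ?_
            rw [← Finset.sum_filter, Finset.mul_sum]
    have h2 : ∀ T ∈ (PM K M).powerset, ∑ S ∈ D.filter (fun S => T ⊆ S), (nS np S)⁻¹ ≤
        (nS np T)⁻¹ * (4 * C * (1 + Real.log R)) := by
      intro T _
      have hT0 := nS_pos T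
      have h3 : ∀ S ∈ D.filter (fun S => T ⊆ S), nS np S = nS np T * nS np (S \ T) := by
        intro S hS
        unfold nS
        rw [mul_comm]
        exact (Finset.prod_sdiff (Finset.mem_filter.1 hS).2).symm
      have h4 : ∑ S ∈ D.filter (fun S => T ⊆ S), (nS np S)⁻¹ = (nS np T)⁻¹ *
          ∑ I ∈ (D.filter (fun S => T ⊆ S)).image (fun S => idS (S \ T)), (nm I)⁻¹ := by
        rw [Finset.sum_image, Finset.mul_sum]
        · refine Finset.sum_congr rfl fun S hS => ?_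
          rw [Pool.Agent.H3.CV.nm_idS, h3 S hS, mul_inv]
        · intro S hS S' hS' h
          have h5 := gu_idS_inj h
          rw [← Finset.sdiff_union_of_subset (Finset.mem_filter.1 hS).2, h5,
            Finset.sdiff_union_of_subset (Finset.mem_filter.1 hS').2]
      rw [h4]
      refine mul_le_mul_of_nonneg_left ?_ (inv_nonneg.2 hT0.le)
      refine gu_range C hCnn hC (M / nS np T) R hR _ fun I hI => ?_
      obtain ⟨S, hS, rfl⟩ := Finset.mem_image.1 hI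
      have h5 := hDm S (Finset.mem_filter.1 hS).1
      have h6 := h3 S hS
      refine ⟨Pool.Agent.H3.CV.idS_ne _, ?_, ?_⟩
      · rw [Pool.Agent.H3.CV.nm_idS, div_right_comm, div_lt_iff₀ hT0, mul_comm, ← h6]
        exact h5.2.1
      · rw [Pool.Agent.H3.CV.nm_idS, le_div_iff₀ hT0, mul_comm, ← h6]
        exact h5.2.2
    rw [h1]
    calc _ ≤ ∑ T ∈ (PM K M).powerset, (fS np T)⁻¹ *
          ((nS np T)⁻¹ * (4 * C * (1 + Real.log R))) :=
          Finset.sum_le_sum fun T hT =>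
            mul_le_mul_of_nonneg_left (h2 T hT) (inv_nonneg.2 (fS_pos T).le)
      _ = (∑ T ∈ (PM K M).powerset, (fS np T)⁻¹ * (nS np T)⁻¹) *
          (4 * C * (1 + Real.log R)) := by
          rw [Finset.sum_mul]
          exact Finset.sum_congr rfl fun T _ => by ring
      _ ≤ Real.exp (2 * B) * (4 * C * (1 + Real.log R)) :=
          mul_le_mul_of_nonneg_right (hprod _) (by positivity)
      _ = C1 * (1 + Real.log R) := by rw [hC1]; ring
  refine ⟨2 * C1 + 8 * B, fun M R hM hR => ?_, fun M hM => ?_, fun X => ?_⟩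
  · refine (hmain M R hM hR).trans (mul_le_mul_of_nonneg_right (by linarith) ?_)
    have := Real.log_nonneg hR
    linarith
  · have h1 := hmain M (2 * M) hM (by linarith)
    have h2 : GS np (PM K M) (M / (2 * M)) = 0 := by
      unfold GS
      have : DS np (PM K M) (M / (2 * M)) = ∅ := by
        unfold DS
        rw [Finset.filter_eq_empty_iff]
        intro S _ h
        have h3 := one_le_nS S
        have h4 : M / (2 * M) = 1 / 2 := by field_simp
        rw [h4] at h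
        linarith
      rw [this, Finset.sum_empty]
    rw [h2, sub_zero] at h1
    have h3 : Real.log (2 * M) = Real.log 2 + Real.log M :=
      Real.log_mul (by norm_num) (by linarith)
    have h4 : Real.log 2 ≤ 1 := by
      have := Real.log_two_lt_d9
      linarith
    have h5 := Real.log_nonneg hM
    rw [h3] at h1
    refine h1.trans ?_
    have h6 : C1 * (1 + (Real.log 2 + Real.log M)) ≤ C1 * (2 * (1 + Real.log M)) :=
      mul_le_mul_of_nonneg_left (by linarith) hC10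
    have h7 : 0 ≤ 8 * B * (1 + Real.log M) := by positivity
    nlinarith
  · have h1 : ∀ P ∈ X, Real.log (np P) / (np P - 1) ^ 2 ≤ 8 * (np P) ^ (-(3 / 2) : ℝ) := by
      intro P _
      have h2 := two_le_np P
      have h3 : Real.log (np P) ≤ 2 * (np P) ^ (1 / 2 : ℝ) := by
        have := Real.log_le_rpow_div (x := np P) (ε := 1 / 2) (by linarith) (by norm_num)
        calc _ ≤ _ := this
          _ = _ := by ring
      have h4 : (np P) ^ 2 / 4 ≤ (np P - 1) ^ 2 := by nlinarith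
      have h5 : 0 ≤ (np P) ^ (1 / 2 : ℝ) := by positivity
      have h6 : (0 : ℝ) < (np P) ^ 2 / 4 := by
        have : 0 < np P := by linarith
        positivity
      calc Real.log (np P) / (np P - 1) ^ 2 ≤ 2 * (np P) ^ (1 / 2 : ℝ) / ((np P) ^ 2 / 4) :=
            div_le_div₀ (by positivity) h3 h6 h4
        _ = 8 * ((np P) ^ (1 / 2 : ℝ) * ((np P) ^ 2)⁻¹) := by
            field_simp
            ring
        _ = 8 * (np P) ^ (-(3 / 2) : ℝ) := by
            congr 1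
            rw [← Real.rpow_two, ← Real.rpow_neg (by linarith), ← Real.rpow_add (by linarith)]
            norm_num
    refine (Finset.sum_le_sum h1).trans ?_
    rw [← Finset.mul_sum]
    have := hB X
    linarith

end Pool.Agent.H86.CV
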